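import Mathlib
import Pool.Agent.H785R2.ABC.Defs

/-!
# abc triples with a fixed term: definitions and statements of the modules (project FX, helper16)

Main theorem: for every fixed `a ≥ 1`, the number of `b ≤ X` coprime to `a` with
`rad (a b (a + b)) ≤ (a + b) ^ (1 + η)` is `O (X ^ (7/16 + δ))` (`η` small in terms of `δ`).

The new ingredient is a bound for the number of solutions of `M q p ^ 3 + u = N q' p' ^ 3`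
with `p, p', q, q'` in given dyadic ranges, `u` fixed.
-/

namespace Pool.Agent.W16.FX

open Finset Pool.Agent.H785R2.ABC

/-- a candidate `(p, p', q, q')` for `M q p ^ 3 + u = N q' p' ^ 3` -/
@[ext] structure Quad where
  p : ℤ
  p' : ℤ
  q : ℤ
  q' : ℤ
deriving DecidableEq

/-- the vector `(p q, p q', p' q, p' q')` -/
def Quad.vec (t : Quad) : Fin 4 → ℤ := ![t.p * t.q, t.p * t.q', t.p' * t.q, t.p' * t.q']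

/-- `p p' q q'` -/
def Quad.prod (t : Quad) : ℤ := t.p * t.p' * t.q * t.q'

/-- `c = N q' p' ^ 3` -/
def Quad.c (N : ℤ) (t : Quad) : ℤ := N * t.q' * t.p' ^ 3

/-- positive solutions of `M q p ^ 3 + u = N q' p' ^ 3` with `M q p`, `N q' p'` coprime -/
structure Sol (u M N : ℤ) (t : Quad) : Prop where
  p_pos : 0 < t.p
  p'_pos : 0 < t.p'
  q_pos : 0 < t.q
  q'_pos : 0 < t.q'
  eq : M * t.q * t.p ^ 3 + u = N * t.q' * t.p' ^ 3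
  cop : IsCoprime (M * t.q * t.p) (N * t.q' * t.p')

/-- all coordinates of `t` and `s` are comparable -/
structure Near (t s : Quad) : Prop where
  p_le : t.p ≤ 16 * s.p
  p_ge : s.p ≤ 16 * t.p
  p'_le : t.p' ≤ 16 * s.p'
  p'_ge : s.p' ≤ 16 * t.p'
  q_le : t.q ≤ 16 * s.q
  q_ge : s.q ≤ 16 * t.q
  q'_le : t.q' ≤ 16 * s.q'
  q'_ge : s.q' ≤ 16 * t.q'

/-- any four members of `T` have linearly dependent vectors -/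
def Dep (T : Finset Quad) : Prop :=
  ∀ t₁ ∈ T, ∀ t₂ ∈ T, ∀ t₃ ∈ T, ∀ t₄ ∈ T,
    Matrix.det (Matrix.of ![t₁.vec, t₂.vec, t₃.vec, t₄.vec]) = 0

/-- FX-RUN -/
def StmtRun : Prop :=
  ∀ u : ℤ, 1 ≤ u → ∃ C : ℕ, ∀ M N α β γ δ g : ℤ, 1 ≤ M → 1 ≤ N → g ≠ 0 → α * δ - β * γ ≠ 0 →
    ∀ T : Finset Quad,
    (∀ t ∈ T, 0 < t.p ∧ 0 < t.p' ∧ IsCoprime t.p t.p' ∧
      M * t.q * t.p ^ 3 + u = N * t.q' * t.p' ^ 3 ∧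
      α * t.p + γ * t.p' = g * t.q' ∧ β * t.p + δ * t.p' = -(g * t.q)) →
    (∀ t ∈ T, ∀ s ∈ T, t.p' ≤ 256 * s.p') → T.card ≤ C

/-- FX-PHI -/
def StmtPhi : Prop :=
  ∀ (V : Finset (Fin 4 → ℤ)) (B : ℤ), 1 ≤ B → (∀ v ∈ V, ∀ i, |v i| ≤ B) →
    (∀ a ∈ V, ∀ b ∈ V, ∀ c ∈ V, ∀ d ∈ V, Matrix.det (Matrix.of ![a, b, c, d]) = 0) →
    ∃ Φ : Fin 4 → ℤ, Φ ≠ 0 ∧ (∀ i, |Φ i| ≤ 64 * B ^ 3) ∧ ∀ v ∈ V, ∑ i, Φ i * v i = 0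

/-- FX-ZERO -/
def StmtZero : Prop :=
  ∀ u : ℤ, 1 ≤ u → ∃ C : ℝ, 0 < C ∧ ∀ M N : ℤ, 1 ≤ M → 1 ≤ N → ∀ s : Quad, Sol u M N s →
    ∀ T : Finset Quad, (∀ t ∈ T, Sol u M N t ∧ Near t s) →
    ∀ Φ : Fin 4 → ℤ, Φ ≠ 0 → Φ 0 * Φ 3 = Φ 1 * Φ 2 → (∀ t ∈ T, ∑ i, Φ i * t.vec i = 0) →
    (T.card : ℝ) ≤ C * (1 + (s.q : ℝ) * s.q' / s.c N)

/-- FX-CLASS -/
def StmtClass : Prop :=
  ∀ u : ℤ, 1 ≤ u → ∀ ε : ℝ, 0 < ε → ∃ D : ℝ, 0 < D ∧ ∀ M N : ℤ, 1 ≤ M → 1 ≤ N →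
    ∀ s : Quad, Sol u M N s → ∀ T : Finset Quad, (∀ t ∈ T, Sol u M N t ∧ Near t s) → Dep T →
    (T.card : ℝ) ≤ D * (s.c N : ℝ) ^ ε * (1 + (s.q : ℝ) * s.q' / s.c N)

/-- FX-DET -/
def StmtDet : Prop :=
  ∀ u : ℤ, 1 ≤ u → ∃ lam : ℝ, 0 < lam ∧ lam ≤ 1 ∧ ∀ (η : ℝ) (M N : ℤ), 0 ≤ η → 1 ≤ M → 1 ≤ N →
    ∀ s : Quad, Sol u M N s → (s.prod : ℝ) ≤ (s.c N : ℝ) ^ (1 + η) → 2 ^ 17 * u ≤ s.c N →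
    ∀ T : Finset Quad, (∀ t ∈ T, Sol u M N t ∧ Near t s) → ∀ τ : ℝ, 0 < τ →
    (∀ t ∈ T, τ ≤ (t.p : ℝ) / t.p' ∧ (t.p : ℝ) / t.p' ≤
      τ * (1 + lam * (s.c N : ℝ) ^ (-2 * η) * (s.prod : ℝ) ^ (-(1 / 3 : ℝ)))) → Dep T

/-- FX-W -/
def StmtW : Prop :=
  ∀ u : ℤ, 1 ≤ u → ∀ ε : ℝ, 0 < ε → ∃ D : ℝ, 0 < D ∧ ∀ (η : ℝ) (M N : ℤ), 0 ≤ η →
    1 ≤ M → 1 ≤ N → ∀ s : Quad, Sol u M N s → (s.prod : ℝ) ≤ (s.c N : ℝ) ^ (1 + η) →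
    ∀ T : Finset Quad, (∀ t ∈ T, Sol u M N t ∧ Near t s) →
    (T.card : ℝ) ≤ D * (s.c N : ℝ) ^ (ε + 3 * η) * (s.prod : ℝ) ^ (1 / 3 : ℝ)

/-- FX-CELL -/
def StmtWcell : Prop :=
  ∀ u : ℕ, 1 ≤ u → ∀ ε : ℝ, 0 < ε → ∃ D : ℝ, 0 < D ∧ ∀ η : ℝ, 0 ≤ η → η ≤ 1 →
    ∀ T : Finset (ℕ × ℕ × ℕ), Cell 3 T → (∀ s ∈ T, s.1 = u) →
    (∀ s ∈ T, (rad (s.1 * s.2.1 * s.2.2) : ℝ) ≤ (s.2.2 : ℝ) ^ (1 + η)) → ∀ s ∈ T,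
    (T.card : ℝ) ≤ D * (s.2.2 : ℝ) ^ (ε + 3 * η) *
      ((rd 3 s.2.1 {1, 3} : ℝ) * rd 3 s.2.2 {1, 3}) *
      ((rd 3 s.2.1 {0, 2} : ℝ) * rd 3 s.2.2 {0, 2}) ^ (1 / 3 : ℝ)

end Pool.Agent.W16.FX
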