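import Mathlib

/-!
# abc triples with a fixed term: the certificate for the exponent 7/16
-/

namespace Pool.Agent.W16.FX

/-- not all bounds fail -/
theorem lp (x0 x1 x2 x3 wx y0 y1 y2 y3 wy t d e : ℝ)
    (px0 : 0 ≤ x0) (px1 : 0 ≤ x1) (px2 : 0 ≤ x2) (px3 : 0 ≤ x3)
    (_py0 : 0 ≤ y0) (_py1 : 0 ≤ y1) (py2 : 0 ≤ y2) (py3 : 0 ≤ y3)
    (pwx : 4 * x3 ≤ wx) (pwy : 4 * y3 ≤ wy) (hd : 0 ≤ d) (he : 0 ≤ e)
    (bx : x0 + 2 * x1 + 3 * x2 + wx ≤ 1) (bx' : 1 - d ≤ x0 + 2 * x1 + 3 * x2 + wx)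
    (by1 : y0 + 2 * y1 + 3 * y2 + wy ≤ 1) (by1' : 1 - d ≤ y0 + 2 * y1 + 3 * y2 + wy)
    (tot : x0 + x1 + x2 + x3 + (y0 + y1 + y2 + y3) ≤ 1 + e)
    (ht : t = 7 / 16 + 5 / 4 * e + 100 * d)
    (f1 : t < x0 + x1 + x3 + (y0 + y1 + y3) ∨
      t < x0 + x1 + x3 + (y0 + y1 + y3) + ((3 * x2 + 3 * y2) / 3 - 1))
    (f2 : t < x0 + x2 + x3 + (y0 + y2 + y3) ∨
      t < x0 + x2 + x3 + (y0 + y2 + y3) + ((2 * x1 + 2 * y1) / 2 - 1))
    (f3 : t < y1 + y2 + y3 + (x1 + x2 + x3) ∨
      t < y1 + y2 + y3 + (x1 + x2 + x3) + (y0 - (2 * x1 + 3 * x2 + wx)))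
    (f4 : t < 3 * e + (x1 + x3 + (y1 + y3)) + (x0 + x2 + (y0 + y2)) / 3)
    (f5 : t < y0 + y2 + y3 + (x1 + x2 + x3) ∨
      t < y0 + y2 + y3 + (x1 + x2 + x3) + (2 * y1 / 2 - (2 * x1 + 3 * x2 + wx)))
    (f6 : t < y0 + y1 + y3 + (x1 + x2 + x3) ∨
      t < y0 + y1 + y3 + (x1 + x2 + x3) + (3 * y2 / 3 - (2 * x1 + 3 * x2 + wx)))
    (f7 : t < x0 + x2 + x3 + (y1 + y2 + y3) ∨
      t < x0 + x2 + x3 + (y1 + y2 + y3) + (2 * x1 / 2 - (2 * y1 + 3 * y2 + wy)))
    (f8 : t < x1 + x2 + x3 + (y2 + y3) ∨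
      t < x1 + x2 + x3 + (y2 + y3) + (x0 + (y0 + 2 * y1) - 1))
    (f9 : t < x0 + x2 + x3 + (y2 + y3) ∨
      t < x0 + x2 + x3 + (y2 + y3) + (2 * x1 / 2 - (3 * y2 + wy)))
    (f10 : t < x2 + x3 + (y1 + y2 + y3) ∨
      t < x2 + x3 + (y1 + y2 + y3) + (x0 + 2 * x1 + y0 - 1))
    (f11 : t < y0 + y2 + y3 + (x2 + x3) ∨
      t < y0 + y2 + y3 + (x2 + x3) + (2 * y1 / 2 - (3 * x2 + wx)))
    (f12 : t < x2 + x3 + (y2 + y3) ∨
      t < x2 + x3 + (y2 + y3) + (x0 + 2 * x1 + (y0 + 2 * y1) - 1))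
    (f13 : t < x1 + x2 + x3 ∨
      t < x1 + x2 + x3 + (x0 + (y0 + 2 * y1 + 3 * y2 + wy) - 1))
    (f14 : t < y1 + y2 + y3 ∨
      t < y1 + y2 + y3 + (x0 + 2 * x1 + 3 * x2 + wx + y0 - 1))
    (f15 : t < y0 + y1 + y3 + (x2 + x3) ∨
      t < y0 + y1 + y3 + (x2 + x3) + (3 * y2 / 3 - (3 * x2 + wx)))
    (f16 : t < x0 + x1 + x3 + (y1 + y3) ∨
      t < x0 + x1 + x3 + (y1 + y3) + (3 * x2 / 3 - (2 * y1 + wy)))
    (f17 : t < x1 + x2 + x3 + (y1 + y3) ∨
      t < x1 + x2 + x3 + (y1 + y3) + (x0 - (2 * y1 + wy)))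
    (f18 : t < y0 + y2 + y3 + x2 ∨
      t < y0 + y2 + y3 + x2 + (2 * y1 / 2 - 3 * x2)) : False := by
  rcases f1 with h1 | h1
  · rcases f2 with h2 | h2
    · rcases f3 with h3 | h3
      · rcases f5 with h5 | h5
        · rcases f6 with h6 | h6
          · rcases f7 with h7 | h7
            · rcases f8 with h8 | h8
              · rcases f9 with h9 | h9
                · rcases f10 with h10 | h10
                  · rcases f11 with h11 | h11
                    · rcases f12 with h12 | h12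
                      · rcases f13 with h13 | h13
                        · linarith
                        · rcases f14 with h14 | h14
                          · linarith
                          · rcases f15 with h15 | h15
                            · rcases f16 with h16 | h16
                              · rcases f17 with h17 | h17
                                · linarith
                                · linarith
                              · linarith
                            · linarith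
                      · linarith
                    · linarith
                  · linarith
                · linarith
              · rcases f18 with h18 | h18
                · linarith
                · linarith
            · linarith
          · linarith
        · linarith
      · linarith
    · linarith
  · linarith

end Pool.Agent.W16.FX
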