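import Mathlib
import Pool.Agent.W16.FX.Defs
import Pool.Agent.W16.FX.LP
import Pool.Agent.H785R2.ABC.Bridge

/-!
# abc triples with a fixed term: the bound for cells
-/

namespace Pool.Agent.W16.FX

open Finset Pool.Agent.H785R2.ABC Pool.Agent.H785R2.ABC.Bridge

/-- all the bounds of type M with the fixed term in a trivial role fail at level `t` -/
structure FailFX (v w : Fin 3 → Fin 4 → ℝ) (t η : ℝ) : Prop where
  M : ∀ k : ℕ, 1 ≤ k → k ≤ 4 → ∀ Sp Sq : Finset (Fin 4), Good 3 k Sp → Good 3 k Sq →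
    t < cost (K := 3) v 1 Spᶜ + cost (K := 3) v 2 Sqᶜ ∨
      t < cost (K := 3) v 1 Spᶜ + cost (K := 3) v 2 Sqᶜ +
        ((cost (K := 3) w 1 Sp + cost (K := 3) w 2 Sq) / k - 1)
  R : ∀ k : ℕ, 1 ≤ k → k ≤ 4 → ∀ p r : Fin 3, p ≠ 0 → r ≠ 0 → p ≠ r →
    ∀ S F : Finset (Fin 4), Good 3 k S →
    t < cost (K := 3) v p Sᶜ + cost (K := 3) v r F ∨
      t < cost (K := 3) v p Sᶜ + cost (K := 3) v r F +
        (cost (K := 3) w p S / k - cost (K := 3) w r F)
  W : t < 3 * η + (cost (K := 3) v 1 {1, 3} + cost (K := 3) v 2 {1, 3}) +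
    (cost (K := 3) v 1 {0, 2} + cost (K := 3) v 2 {0, 2}) / 3

theorem no_fail (v w : Fin 3 → Fin 4 → ℝ) (η δ : ℝ) (hη : 0 ≤ η) (hδ : 0 ≤ δ)
    (hP : Poly 3 (1 + η) δ v w) (h : FailFX v w (7 / 16 + 5 / 4 * η + 100 * δ) η) : False := by
  have g0 : ∀ k : ℕ, k = 1 → ∀ S : Finset (Fin 4), Good 3 k S := by
    intro k hk S i _
    exact Or.inl hk
  have g1 : Good 3 2 ({1} : Finset (Fin 4)) := by
    intro i hi
    rw [mem_singleton] at hi
    subst hi
    right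
    constructor <;> norm_num
  have g2 : Good 3 3 ({2} : Finset (Fin 4)) := by
    intro i hi
    rw [mem_singleton] at hi
    subst hi
    right
    constructor <;> norm_num
  have e0 : ({0} : Finset (Fin 4))ᶜ = {1, 2, 3} := by decide
  have e1 : ({1} : Finset (Fin 4))ᶜ = {0, 2, 3} := by decide
  have e2 : ({2} : Finset (Fin 4))ᶜ = {0, 1, 3} := by decide
  have e01 : ({0, 1} : Finset (Fin 4))ᶜ = {2, 3} := by decide
  have eu : (univ : Finset (Fin 4)) = {0, 1, 2, 3} := by decide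
  have eu' : (univ : Finset (Fin 4))ᶜ = ∅ := by decide
  have c1 : ∀ (v : Fin 3 → Fin 4 → ℝ) (j : Fin 3) (i : Fin 4), cost (K := 3) v j {i} = v j i := by
    intro v j i; simp [cost]
  have c0 : ∀ (v : Fin 3 → Fin 4 → ℝ) (j : Fin 3), cost (K := 3) v j ∅ = 0 := by
    intro v j; simp [cost]
  have c01 : ∀ (v : Fin 3 → Fin 4 → ℝ) (j : Fin 3), cost (K := 3) v j {0, 1} = v j 0 + v j 1 := by
    intro v j; simp [cost]
  have c02 : ∀ (v : Fin 3 → Fin 4 → ℝ) (j : Fin 3), cost (K := 3) v j {0, 2} = v j 0 + v j 2 := by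
    intro v j; simp [cost]
  have c13 : ∀ (v : Fin 3 → Fin 4 → ℝ) (j : Fin 3), cost (K := 3) v j {1, 3} = v j 1 + v j 3 := by
    intro v j; simp [cost]
  have c23 : ∀ (v : Fin 3 → Fin 4 → ℝ) (j : Fin 3), cost (K := 3) v j {2, 3} = v j 2 + v j 3 := by
    intro v j; simp [cost]
  have c123 : ∀ (v : Fin 3 → Fin 4 → ℝ) (j : Fin 3),
      cost (K := 3) v j {1, 2, 3} = v j 1 + v j 2 + v j 3 := by
    intro v j; simp [cost]; ring
  have c023 : ∀ (v : Fin 3 → Fin 4 → ℝ) (j : Fin 3),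
      cost (K := 3) v j {0, 2, 3} = v j 0 + v j 2 + v j 3 := by
    intro v j; simp [cost]; ring
  have c013 : ∀ (v : Fin 3 → Fin 4 → ℝ) (j : Fin 3),
      cost (K := 3) v j {0, 1, 3} = v j 0 + v j 1 + v j 3 := by
    intro v j; simp [cost]; ring
  have cu : ∀ (v : Fin 3 → Fin 4 → ℝ) (j : Fin 3),
      cost (K := 3) v j univ = v j 0 + v j 1 + v j 2 + v j 3 := by
    intro v j; simp [cost, Fin.sum_univ_four]
  have w0 : ∀ j, w j 0 = v j 0 := by
    intro j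
    have := hP.w_eq j 0 (by norm_num)
    simpa using this
  have w1 : ∀ j, w j 1 = 2 * v j 1 := by
    intro j
    have := hP.w_eq j 1 (by norm_num)
    rw [this]
    norm_num
  have w2 : ∀ j, w j 2 = 3 * v j 2 := by
    intro j
    have := hP.w_eq j 2 (by norm_num)
    rw [this]
    norm_num
  have w3 : ∀ j, 4 * v j 3 ≤ w j 3 := by
    intro j
    have := hP.w_last j
    have e : (Fin.last 3 : Fin 4) = 3 := rfl
    rw [e] at this
    norm_num at this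
    exact this
  have hv := hP.v_nonneg
  have b1 := hP.w1
  have b1' := hP.w1'
  have b2 := hP.w2
  have b2' := hP.w2'
  have ht := hP.tot
  rw [cu, w0, w1, w2] at b1 b1' b2 b2'
  rw [cu, cu, cu] at ht
  have f1 := h.M 3 (by norm_num) (by norm_num) {2} {2} g2 g2
  have f2 := h.M 2 (by norm_num) (by norm_num) {1} {1} g1 g1
  have f3 := h.R 1 (by norm_num) (by norm_num) 2 1 (by decide) (by decide) (by decide)
    {0} {1, 2, 3} (g0 1 rfl _)
  have f4 := h.W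
  have f5 := h.R 2 (by norm_num) (by norm_num) 2 1 (by decide) (by decide) (by decide)
    {1} {1, 2, 3} g1
  have f6 := h.R 3 (by norm_num) (by norm_num) 2 1 (by decide) (by decide) (by decide)
    {2} {1, 2, 3} g2
  have f7 := h.R 2 (by norm_num) (by norm_num) 1 2 (by decide) (by decide) (by decide)
    {1} {1, 2, 3} g1
  have f8 := h.M 1 (by norm_num) (by norm_num) {0} {0, 1} (g0 1 rfl _) (g0 1 rfl _)
  have f9 := h.R 2 (by norm_num) (by norm_num) 1 2 (by decide) (by decide) (by decide)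
    {1} {2, 3} g1
  have f10 := h.M 1 (by norm_num) (by norm_num) {0, 1} {0} (g0 1 rfl _) (g0 1 rfl _)
  have f11 := h.R 2 (by norm_num) (by norm_num) 2 1 (by decide) (by decide) (by decide)
    {1} {2, 3} g1
  have f12 := h.M 1 (by norm_num) (by norm_num) {0, 1} {0, 1} (g0 1 rfl _) (g0 1 rfl _)
  have f13 := h.M 1 (by norm_num) (by norm_num) {0} univ (g0 1 rfl _) (g0 1 rfl _)
  have f14 := h.M 1 (by norm_num) (by norm_num) univ {0} (g0 1 rfl _) (g0 1 rfl _)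
  have f15 := h.R 3 (by norm_num) (by norm_num) 2 1 (by decide) (by decide) (by decide)
    {2} {2, 3} g2
  have f16 := h.R 3 (by norm_num) (by norm_num) 1 2 (by decide) (by decide) (by decide)
    {2} {1, 3} g2
  have f17 := h.R 1 (by norm_num) (by norm_num) 1 2 (by decide) (by decide) (by decide)
    {0} {1, 3} (g0 1 rfl _)
  have f18 := h.R 2 (by norm_num) (by norm_num) 2 1 (by decide) (by decide) (by decide)
    {1} {2} g1
  simp only [e0, e1, e2, e01, eu', c0, c1, c01, c02, c13, c23, c123, c023, c013, cu, w0, w1, w2,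
    Nat.cast_ofNat, Nat.cast_one, div_one, add_zero, zero_add]
    at f1 f2 f3 f4 f5 f6 f7 f8 f9 f10 f11 f12 f13 f14 f15 f16 f17 f18
  have hs : 0 ≤ v 0 0 + v 0 1 + v 0 2 + v 0 3 := by
    have := hv 0 0; have := hv 0 1; have := hv 0 2; have := hv 0 3
    linarith
  refine lp (v 1 0) (v 1 1) (v 1 2) (v 1 3) (w 1 3) (v 2 0) (v 2 1) (v 2 2) (v 2 3) (w 2 3)
    (7 / 16 + 5 / 4 * η + 100 * δ) δ η (hv _ _) (hv _ _) (hv _ _) (hv _ _) (hv _ _) (hv _ _)
    (hv _ _) (hv _ _) (w3 1) (w3 2) hδ hη (by linarith) (by linarith) (by linarith) (by linarith)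
    (by linarith) rfl f1 f2 f3 f4 f5 f6 f7 f8 f9 f10 f11 f12 f13 f14 f15 f16 f17 f18

/-- bound for cells with fixed term `u` -/
def StmtCellFX : Prop :=
  ∀ u : ℕ, 1 ≤ u → ∀ ε : ℝ, 0 < ε → ∃ D : ℝ, 0 < D ∧ ∀ η : ℝ, 0 ≤ η → η ≤ 1 →
    ∀ T : Finset (ℕ × ℕ × ℕ), Cell 3 T → (∀ s ∈ T, s.1 = u) →
    (∀ s ∈ T, (rad (s.1 * s.2.1 * s.2.2) : ℝ) ≤ (s.2.2 : ℝ) ^ (1 + η)) → ∀ s ∈ T,
    (T.card : ℝ) ≤ D * (s.2.2 : ℝ) ^ (7 / 16 + 5 / 4 * η + ε)

theorem cell_bound (hF : Basics) (hP : StmtPoly) (hM : StmtMcell) (hW : StmtWcell) :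
    StmtCellFX := by
  intro u hu ε hε
  obtain ⟨D₁, hD₁, H₁⟩ := hM 3 (ε / 2) (by positivity)
  obtain ⟨D₂, hD₂, H₂⟩ := hW u hu (ε / 2) (by positivity)
  have hu1 : (1 : ℝ) ≤ u := by exact_mod_cast hu
  have hu0 : (0 : ℝ) < u := by linarith
  refine ⟨2 * ((D₁ + D₂) * u) * Real.exp (100 * Real.log 2), by positivity, ?_⟩
  intro η hη hη1 T hT hTu hrad s hs
  have h := hT.abc s hs
  have hc2 : (2 : ℝ) ≤ s.2.2 := by exact_mod_cast two_le_c h
  have hc : (0 : ℝ) < s.2.2 := by linarith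
  have hc1 : (1 : ℝ) ≤ s.2.2 := by linarith
  have hlog : 0 < Real.log s.2.2 := Real.log_pos (by linarith)
  have hpoly := hP 3 (1 + η) s h (hT.le s hs) (hrad s hs)
  have hδ : 0 ≤ Real.log 2 / Real.log s.2.2 :=
    div_nonneg (Real.log_nonneg (by norm_num)) hlog.le
  set δ : ℝ := Real.log 2 / Real.log s.2.2 with hδd
  by_contra hcon
  push Not at hcon
  have hEx : 0 < Real.exp (100 * Real.log 2) := Real.exp_pos _
  set B : ℝ := Real.exp (100 * Real.log 2) * (s.2.2 : ℝ) ^ (7 / 16 + 5 / 4 * η + ε / 2) with hB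
  have hB0 : 0 < B := mul_pos hEx (Real.rpow_pos_of_pos hc _)
  have hpw : ∀ y : ℝ, y ≤ 7 / 16 + 5 / 4 * η + 100 * δ + ε / 2 → (s.2.2 : ℝ) ^ y ≤ B := by
    intro y hy
    calc (s.2.2 : ℝ) ^ y ≤ (s.2.2 : ℝ) ^ ((7 / 16 + 5 / 4 * η + ε / 2) + 100 * δ) :=
          Real.rpow_le_rpow_of_exponent_le hc1 (by linarith)
      _ = B := by
          rw [Real.rpow_add hc, mul_comm, hB]
          congr 1
          rw [Real.rpow_def_of_pos hc]
          congr 1
          rw [hδd]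
          field_simp
  have hcε : 0 < (s.2.2 : ℝ) ^ (ε / 2) := Real.rpow_pos_of_pos hc _
  have hfin : ∀ D : ℝ, 0 < D → D ≤ D₁ + D₂ → ∀ y : ℝ, y ≤ 2 * (u * B) →
      (T.card : ℝ) ≤ D * (s.2.2 : ℝ) ^ (ε / 2) * y → False := by
    intro D hD0 hDle y hy hcard
    have h1 : (T.card : ℝ) ≤ 2 * ((D₁ + D₂) * u) * Real.exp (100 * Real.log 2) *
        (s.2.2 : ℝ) ^ (7 / 16 + 5 / 4 * η + ε) := by
      calc (T.card : ℝ) ≤ D * (s.2.2 : ℝ) ^ (ε / 2) * y := hcard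
        _ ≤ D * (s.2.2 : ℝ) ^ (ε / 2) * (2 * (u * B)) :=
            mul_le_mul_of_nonneg_left hy (by positivity)
        _ ≤ (D₁ + D₂) * (s.2.2 : ℝ) ^ (ε / 2) * (2 * (u * B)) := by
            apply mul_le_mul_of_nonneg_right _ (by positivity)
            exact mul_le_mul_of_nonneg_right hDle hcε.le
        _ = 2 * ((D₁ + D₂) * u) * Real.exp (100 * Real.log 2) *
          (s.2.2 : ℝ) ^ (7 / 16 + 5 / 4 * η + ε) := by
            have e : (s.2.2 : ℝ) ^ (7 / 16 + 5 / 4 * η + ε) =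
                (s.2.2 : ℝ) ^ (ε / 2) * (s.2.2 : ℝ) ^ (7 / 16 + 5 / 4 * η + ε / 2) := by
              rw [← Real.rpow_add hc]
              congr 1
              ring
            rw [e, hB]
            ring
    linarith
  have hs1 : (s.1 : ℝ) = u := by exact_mod_cast hTu s hs
  have hn0 : num s 0 = s.1 := rfl
  have hn1 : num s 1 = s.2.1 := rfl
  have hn2 : num s 2 = s.2.2 := rfl
  have hra : (rd 3 (num s 0) univ : ℝ) ≤ u := by
    rw [hF.rd_univ, hn0, ← hs1]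
    have : rad s.1 ≤ s.1 := Nat.le_of_dvd h.1 (Nat.prod_primeFactors_dvd _)
    exact_mod_cast this
  refine no_fail (expV 3 s) (expW 3 s) η δ hη hδ hpoly ⟨?_, ?_, ?_⟩
  · intro k hk1 hk2 Sp Sq hp hq
    by_contra hc'
    push Not at hc'
    obtain ⟨b1, b2⟩ := hc'
    refine hfin D₁ hD₁ (by linarith) _ ?_
      ((H₁ T hT s hs 1 2 0 (by decide) (by decide) (by decide) k hk1 hk2 Sp Sq ∅ hp hq).trans
        (le_of_eq (mul_assoc _ _ _)))
    have e1 : (rd 3 (num s 0) ∅ : ℝ) = 1 := by simp [rd, pf]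
    have e2 : (part 3 (num s 0) ∅ : ℝ) = 1 := by simp [part, pf]
    have e3 : th s 0 = u * (s.2.2 : ℝ) ^ (-1 : ℝ) := by
      rw [Real.rpow_neg_one, th, if_pos rfl, hs1, div_eq_mul_inv]
    rw [e1, e2, e3, rd_eq hF 3 h, rd_eq hF 3 h, part_eq hF 3 h, part_eq hF 3 h, mul_one, div_one,
      ← Real.rpow_add hc, ← Real.rpow_add hc, ← Real.rpow_mul hc.le]
    have c1 := hpw _ (b1.trans (by linarith))
    have c2 := hpw _ (b2.trans (by linarith))
    have e4 : (s.2.2 : ℝ) ^ (cost (expV 3 s) 1 Spᶜ + cost (expV 3 s) 2 Sqᶜ +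
        ((cost (expW 3 s) 1 Sp + cost (expW 3 s) 2 Sq) / k - 1)) =
        (s.2.2 : ℝ) ^ (cost (expV 3 s) 1 Spᶜ + cost (expV 3 s) 2 Sqᶜ) *
        ((s.2.2 : ℝ) ^ (-1 : ℝ) *
          (s.2.2 : ℝ) ^ ((cost (expW 3 s) 1 Sp + cost (expW 3 s) 2 Sq) * (1 / (k : ℝ)))) := by
      rw [← Real.rpow_add hc, ← Real.rpow_add hc]
      congr 1
      ring
    rw [e4] at c2
    nlinarith [mul_le_mul_of_nonneg_left c2 hu0.le, mul_le_mul_of_nonneg_left c1 hu0.le,
      mul_le_mul_of_nonneg_right hu1 (Real.rpow_pos_of_pos hc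
        (cost (expV 3 s) 1 Spᶜ + cost (expV 3 s) 2 Sqᶜ)).le]
  · intro k hk1 hk2 p r hp0 hr0 hpr S F hS
    by_contra hc'
    push Not at hc'
    obtain ⟨b1, b2⟩ := hc'
    have hg : Good 3 k (∅ : Finset (Fin 4)) := by
      intro i hi
      simp at hi
    refine hfin D₁ hD₁ (by linarith) _ ?_
      ((H₁ T hT s hs p 0 r hp0 hr0.symm hpr k hk1 hk2 S ∅ F hS hg).trans
        (le_of_eq (mul_assoc _ _ _)))
    have e2 : (part 3 (num s 0) ∅ : ℝ) = 1 := by simp [part, pf]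
    have e3 : th s r = 1 := by
      rw [th, if_neg hr0]
    rw [e2, e3, compl_empty, rd_eq hF 3 h p, rd_eq hF 3 h r, part_eq hF 3 h p, part_eq hF 3 h r,
      mul_one, one_mul, ← Real.rpow_mul hc.le, ← Real.rpow_sub hc]
    have c1 := hpw _ (b1.trans (by linarith))
    have c2 := hpw _ (b2.trans (by linarith))
    have e4 : (s.2.2 : ℝ) ^ (cost (expV 3 s) p Sᶜ + cost (expV 3 s) r F +
        (cost (expW 3 s) p S / k - cost (expW 3 s) r F)) =
        (s.2.2 : ℝ) ^ (cost (expV 3 s) p Sᶜ) * (s.2.2 : ℝ) ^ (cost (expV 3 s) r F) *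
          (s.2.2 : ℝ) ^ (cost (expW 3 s) p S * (1 / (k : ℝ)) - cost (expW 3 s) r F) := by
      rw [← Real.rpow_add hc, ← Real.rpow_add hc]
      congr 1
      ring
    rw [e4] at c2
    rw [Real.rpow_add hc] at c1
    set P1 : ℝ := (s.2.2 : ℝ) ^ (cost (expV 3 s) p Sᶜ) with hP1
    set P2 : ℝ := (s.2.2 : ℝ) ^ (cost (expV 3 s) r F) with hP2
    set P3 : ℝ := (s.2.2 : ℝ) ^ (cost (expW 3 s) p S * (1 / (k : ℝ)) - cost (expW 3 s) r F)
      with hP3
    have p1 : 0 < P1 := Real.rpow_pos_of_pos hc _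
    have p2 : 0 < P2 := Real.rpow_pos_of_pos hc _
    have p3 : 0 < P3 := Real.rpow_pos_of_pos hc _
    calc P1 * (rd 3 (num s 0) univ : ℝ) * P2 * (1 + P3) ≤ P1 * u * P2 * (1 + P3) := by
          gcongr
      _ = u * (P1 * P2 + P1 * P2 * P3) := by ring
      _ ≤ u * (B + B) := by
          gcongr
      _ = 2 * (u * B) := by ring
  · by_contra hc'
    push Not at hc'
    refine hfin D₂ hD₂ (by linarith) ((s.2.2 : ℝ) ^ (3 * η) *
      (((rd 3 s.2.1 {1, 3} : ℝ) * rd 3 s.2.2 {1, 3}) *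
      ((rd 3 s.2.1 {0, 2} : ℝ) * rd 3 s.2.2 {0, 2}) ^ (1 / 3 : ℝ))) ?_
      ((H₂ η hη hη1 T hT hTu hrad s hs).trans (le_of_eq ?_))
    · rw [← hn1, ← hn2, rd_eq hF 3 h, rd_eq hF 3 h, rd_eq hF 3 h, rd_eq hF 3 h, hn2,
        ← Real.rpow_add hc, ← Real.rpow_add hc, ← Real.rpow_mul hc.le, ← Real.rpow_add hc,
        ← Real.rpow_add hc]
      refine (hpw _ ?_).trans ?_
      · linarith
      · nlinarith [mul_le_mul_of_nonneg_right hu1 hB0.le]
    · rw [Real.rpow_add hc]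
      ring

end Pool.Agent.W16.FX
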