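import Mathlib
import Pool.Agent.W16.FX.Asm
import Pool.Agent.H785R2.ABC.Final

/-!
# abc triples with a fixed term: the final count
-/

namespace Pool.Agent.W16.FX

open Finset Pool.Agent.H785R2.ABC Pool.Agent.H785R2.ABC.Fin1

/-- the exceptional `b` for the fixed term `a` -/
noncomputable def exc (a : ℕ) (η : ℝ) (X : ℕ) : Finset ℕ :=
  (Icc 1 X).filter fun b => Nat.Coprime a b ∧
    (rad (a * b * (a + b)) : ℝ) ≤ ((a + b : ℕ) : ℝ) ^ (1 + η)

theorem count_of (hF : Basics) (hC : StmtCellFX) (a : ℕ) (ha : 1 ≤ a) (ε : ℝ) (hε : 0 < ε) :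
    ∃ D : ℝ, 0 < D ∧ ∀ η : ℝ, 0 ≤ η → η ≤ 1 → ∀ X : ℕ, 1 ≤ X →
      ((exc a η X).card : ℝ) ≤ D * (X : ℝ) ^ (7 / 16 + 5 / 4 * η + ε) := by
  classical
  obtain ⟨D, hD, hcell⟩ := hC a ha (ε / 2) (by positivity)
  set m : ℕ := 2 * ((3 + 1) * 3) with hm
  have hmpos : (0 : ℝ) < m := by
    rw [hm]; positivity
  set η' : ℝ := ε / 2 / m with hη'
  have hη'pos : 0 < η' := by rw [hη']; positivity
  have ha1 : (1 : ℝ) ≤ a := by exact_mod_cast ha
  have ha0 : (0 : ℝ) < a := by linarith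
  refine ⟨a + (1 + 2 / η') ^ m * D * (2 * a) ^ (7 / 16 + 5 / 4 + ε), by positivity, ?_⟩
  intro η hη0 hη1 X hX
  have hX' : (1 : ℝ) ≤ X := by exact_mod_cast hX
  have hXp : (0 : ℝ) < X := by linarith
  -- the triples
  set Z : ℕ := a + X with hZ
  have hZ1 : 1 ≤ Z := by omega
  set L := Nat.log 2 Z with hL
  set A : Finset ℕ := (exc a η X).filter fun b => a ≤ b with hA
  set A1 : Finset (ℕ × ℕ × ℕ) := A.image fun b => (a, b, a + b) with hA1
  have hsplit : (exc a η X).card ≤ a + A.card := by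
    have h2 := card_filter_add_card_filter_not (s := exc a η X) (fun b => a ≤ b)
    rw [← hA] at h2
    have h1 : ((exc a η X).filter (fun b => ¬ a ≤ b)).card ≤ a := by
      calc ((exc a η X).filter (fun b => ¬ a ≤ b)).card ≤ (range a).card := by
            apply card_le_card
            intro b hb
            rw [mem_filter] at hb
            rw [mem_range]
            omega
        _ = a := card_range a
    omega
  have hAA1 : A.card = A1.card := by
    rw [hA1, card_image_of_injective]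
    intro b b' h
    exact (Prod.mk.inj (Prod.mk.inj h).2).1
  have hAm : ∀ t ∈ A1, IsABCTriple t.1 t.2.1 t.2.2 ∧ t.2.2 ≤ Z ∧
      (rad (t.1 * t.2.1 * t.2.2) : ℝ) ≤ (t.2.2 : ℝ) ^ (1 + η) ∧ t.1 ≤ t.2.1 ∧ t.1 = a := by
    intro t ht
    rw [hA1, mem_image] at ht
    obtain ⟨b, hb, rfl⟩ := ht
    rw [hA, mem_filter, exc, mem_filter, mem_Icc] at hb
    obtain ⟨⟨⟨hb1, hbX⟩, hcop, hrad⟩, hab⟩ := hb
    refine ⟨⟨ha, hb1, by simp only; omega, rfl, hcop, ?_, ?_⟩, ?_, hrad, hab, rfl⟩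
    · simpa using hcop
    · simpa using hcop.symm
    · simp only
      omega
  have hsgle : ∀ t ∈ A1, ∀ j i, (sg 3 t j i).1 ≤ L ∧ (sg 3 t j i).2 ≤ L := by
    intro t ht j i
    obtain ⟨h1, h2, _⟩ := hAm t ht
    have hn := num_pos h1 j
    have hnX : num t j ≤ Z := (num_le h1 j).trans h2
    constructor
    · change Nat.log 2 (rd 3 (num t j) {i}) ≤ Nat.log 2 Z
      apply Nat.log_mono_right
      have e1 : rd 3 (num t j) {i} ∣ rad (num t j) := by
        rw [← hF.rd_univ 3 (num t j)]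
        exact hF.rd_dvd 3 _ _ _ (subset_univ _)
      have e2 : rad (num t j) ∣ num t j := Nat.prod_primeFactors_dvd _
      exact (Nat.le_of_dvd hn (e1.trans e2)).trans hnX
    · change Nat.log 2 (part 3 (num t j) {i}) ≤ Nat.log 2 Z
      apply Nat.log_mono_right
      exact (Nat.le_of_dvd hn (hF.part_dvd 3 _ _ hn)).trans hnX
  set sgF : (ℕ × ℕ × ℕ) → (Fin 3 → Fin (3 + 1) → Fin (L + 1) × Fin (L + 1)) := fun t j i =>
    (Fin.ofNat (L + 1) (sg 3 t j i).1, Fin.ofNat (L + 1) (sg 3 t j i).2) with hsgF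
  have hinj : ∀ t ∈ A1, ∀ t' ∈ A1, sgF t = sgF t' → sg 3 t = sg 3 t' := by
    intro t ht t' ht' h
    funext j i
    have h1 := congrFun (congrFun h j) i
    simp only [hsgF, Prod.mk.injEq] at h1
    have a1 := hsgle t ht j i
    have a2 := hsgle t' ht' j i
    have b1 := congrArg Fin.val h1.1
    have b2 := congrArg Fin.val h1.2
    simp only [Fin.ofNat] at b1 b2
    rw [Nat.mod_eq_of_lt (by omega), Nat.mod_eq_of_lt (by omega)] at b1 b2
    exact Prod.ext b1 b2
  have hexp : 0 ≤ 7 / 16 + 5 / 4 * η + ε / 2 := by linarith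
  have hA1card : (A1.card : ℝ) ≤ ((L + 1 : ℕ) : ℝ) ^ m *
      (D * (Z : ℝ) ^ (7 / 16 + 5 / 4 * η + ε / 2)) := by
    have h1 := card_eq_sum_card_fiberwise (f := sgF) (s := A1) (t := univ)
      (fun _ _ => mem_coe.2 (mem_univ _))
    rw [h1]
    push_cast
    calc ∑ σ : (Fin 3 → Fin (3 + 1) → Fin (L + 1) × Fin (L + 1)),
          ((A1.filter (fun t => sgF t = σ)).card : ℝ)
        ≤ ∑ σ : (Fin 3 → Fin (3 + 1) → Fin (L + 1) × Fin (L + 1)),
            D * (Z : ℝ) ^ (7 / 16 + 5 / 4 * η + ε / 2) := by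
          apply sum_le_sum
          intro σ _
          set T := A1.filter (fun t => sgF t = σ) with hT
          rcases T.eq_empty_or_nonempty with h0 | ⟨s, hs⟩
          · rw [h0]
            simp only [card_empty, Nat.cast_zero]
            positivity
          · have hTm : ∀ t ∈ T, t ∈ A1 := fun t ht => (mem_filter.1 ht).1
            have hcl : Cell 3 T := cell_of hF 3 T (fun s hs => (hAm s (hTm s hs)).1)
              (fun s hs => (hAm s (hTm s hs)).2.2.2.1) (fun s hs s' hs' =>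
                hinj s (hTm s hs) s' (hTm s' hs')
                  ((mem_filter.1 hs).2.trans (mem_filter.1 hs').2.symm))
            refine (hcell η hη0 hη1 T hcl (fun s hs => (hAm s (hTm s hs)).2.2.2.2)
              (fun s hs => (hAm s (hTm s hs)).2.2.1) s hs).trans ?_
            refine mul_le_mul_of_nonneg_left ?_ hD.le
            exact Real.rpow_le_rpow (Nat.cast_nonneg _) (by exact_mod_cast (hAm s (hTm s hs)).2.1)
              hexp
      _ = _ := by
          rw [sum_const, nsmul_eq_mul, card_univ]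
          congr 1
          simp only [Fintype.card_fun, Fintype.card_prod, Fintype.card_fin]
          have e3 : ((L + 1) * (L + 1)) = (L + 1) ^ 2 := by ring
          rw [e3, ← pow_mul, ← pow_mul, Nat.cast_pow]
          rw [← hm]
          push_cast
          rfl
  have hZp : (0 : ℝ) < Z := by exact_mod_cast hZ1
  have hZ1' : (1 : ℝ) ≤ Z := by exact_mod_cast hZ1
  have hLb := log_le Z hZ1 η' hη'pos
  have hLm : ((L + 1 : ℕ) : ℝ) ^ m ≤ (1 + 2 / η') ^ m * (Z : ℝ) ^ (ε / 2) := by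
    calc ((L + 1 : ℕ) : ℝ) ^ m ≤ ((1 + 2 / η') * (Z : ℝ) ^ η') ^ m :=
          pow_le_pow_left₀ (Nat.cast_nonneg _) hLb m
      _ = (1 + 2 / η') ^ m * (Z : ℝ) ^ (ε / 2) := by
          rw [mul_pow]
          congr 1
          rw [← Real.rpow_natCast, ← Real.rpow_mul hZp.le]
          congr 1
          rw [hη']; field_simp
  set E : ℝ := 7 / 16 + 5 / 4 * η + ε with hE
  have hE0 : 0 ≤ E := by rw [hE]; linarith
  have hZX : (Z : ℝ) ≤ 2 * a * X := by
    rw [hZ]
    push_cast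
    nlinarith
  have hZE : (Z : ℝ) ^ E ≤ (2 * a) ^ (7 / 16 + 5 / 4 + ε) * (X : ℝ) ^ E := by
    calc (Z : ℝ) ^ E ≤ (2 * a * X) ^ E := Real.rpow_le_rpow hZp.le hZX hE0
      _ = (2 * a) ^ E * (X : ℝ) ^ E := Real.mul_rpow (by positivity) hXp.le
      _ ≤ (2 * a) ^ (7 / 16 + 5 / 4 + ε) * (X : ℝ) ^ E := by
          apply mul_le_mul_of_nonneg_right _ (Real.rpow_nonneg hXp.le _)
          apply Real.rpow_le_rpow_of_exponent_le (by linarith)
          rw [hE]
          linarith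
  have h1X : (1 : ℝ) ≤ (X : ℝ) ^ E := Real.one_le_rpow hX' hE0
  calc ((exc a η X).card : ℝ) ≤ a + A1.card := by
        rw [← hAA1]
        exact_mod_cast hsplit
    _ ≤ a + ((L + 1 : ℕ) : ℝ) ^ m * (D * (Z : ℝ) ^ (7 / 16 + 5 / 4 * η + ε / 2)) := by linarith
    _ ≤ a + ((1 + 2 / η') ^ m * (Z : ℝ) ^ (ε / 2)) *
        (D * (Z : ℝ) ^ (7 / 16 + 5 / 4 * η + ε / 2)) := by
        have := mul_le_mul_of_nonneg_right hLm
          (show 0 ≤ D * (Z : ℝ) ^ (7 / 16 + 5 / 4 * η + ε / 2) by positivity)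
        linarith
    _ = a + (1 + 2 / η') ^ m * D * (Z : ℝ) ^ E := by
        have : (Z : ℝ) ^ E = (Z : ℝ) ^ (ε / 2) * (Z : ℝ) ^ (7 / 16 + 5 / 4 * η + ε / 2) := by
          rw [← Real.rpow_add hZp]; congr 1; rw [hE]; ring
        rw [this]; ring
    _ ≤ a * (X : ℝ) ^ E + (1 + 2 / η') ^ m * D *
        ((2 * a) ^ (7 / 16 + 5 / 4 + ε) * (X : ℝ) ^ E) := by
        apply add_le_add
        · exact le_mul_of_one_le_right ha0.le h1X
        · exact mul_le_mul_of_nonneg_left hZE (by positivity)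
    _ = (a + (1 + 2 / η') ^ m * D * (2 * a) ^ (7 / 16 + 5 / 4 + ε)) * (X : ℝ) ^ E := by ring

end Pool.Agent.W16.FX
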