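import Mathlib
import Pool.Agent.W16.FX.Fin
import Pool.Agent.W74.FX.Run
import Pool.Agent.W376.FX.Phi
import Pool.Agent.W376.FX.Zero
import Pool.Agent.W398.FX.Class
import Pool.Agent.W118.FX.Det
import Pool.Agent.W402.FX.W
import Pool.Agent.W402.FX.Cell
import Pool.Agent.H705R2.ABC2.Main2

/-!
# abc triples with a fixed term: the main theorem
-/

namespace Pool.Agent.W16.FX

open Finset Pool.Agent.H785R2.ABC Pool.Agent.H705R2.ABC Pool.Agent.H705R2.ABC2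

theorem stmtCellFX : StmtCellFX :=
  cell_bound basics (PO.stmtPoly_of basics) stmtMcell'
    (W402.FX.stmtWcell_of basics stmtA4'
      (W402.FX.stmtW_of (W398.FX.stmtClass_of W74.FX.stmtRun W376.FX.stmtPhi W376.FX.stmtZero)
        W118.FX.stmtDet))

/-- for fixed `a` the number of exceptional `b ≤ X` is `O (X ^ (7/16 + 5/4 η + ε))` -/
theorem main (a : ℕ) (ha : 1 ≤ a) (ε : ℝ) (hε : 0 < ε) :
    ∃ D : ℝ, 0 < D ∧ ∀ η : ℝ, 0 ≤ η → η ≤ 1 → ∀ X : ℕ, 1 ≤ X →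
      (({b : ℕ | 1 ≤ b ∧ b ≤ X ∧ Nat.Coprime a b ∧
        ((∏ p ∈ (a * b * (a + b)).primeFactors, p : ℕ) : ℝ) ≤
          ((a + b : ℕ) : ℝ) ^ (1 + η)}.ncard : ℕ) : ℝ) ≤
        D * (X : ℝ) ^ (7 / 16 + 5 / 4 * η + ε) := by
  obtain ⟨D, hD, h⟩ := count_of basics stmtCellFX a ha ε hε
  refine ⟨D, hD, fun η h0 h1 X hX => ?_⟩
  have e : {b : ℕ | 1 ≤ b ∧ b ≤ X ∧ Nat.Coprime a b ∧
        ((∏ p ∈ (a * b * (a + b)).primeFactors, p : ℕ) : ℝ) ≤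
          ((a + b : ℕ) : ℝ) ^ (1 + η)} = (exc a η X : Set ℕ) := by
    ext b
    rw [mem_coe, exc, mem_filter, mem_Icc]
    simp only [Set.mem_ofPred_eq, rad]
    tauto
  rw [e, Set.ncard_coe_finset]
  exact h η h0 h1 X hX

end Pool.Agent.W16.FX
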